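import Pool.Agent.N620.SP.Fam

set_option autoImplicit false

/-!
Turing determinacy and a fragment of Wadge's ordering of the sets of reals. For a set `B` of reals
and a real `x` let the trace of `B` on `x` be the sequence of the truth values of `Column x k ∈ B`.
To `B` we attach a family of Turing invariant sets of reals, one for each Borel function `S` from
reals to reals: the saturation of the set of all `z` such that `S z` is computable from `z` and the
trace of `B` on some `x ≤_T z`. If they are determined, then either `B` is Borel bounded (the traces
of `B` on the reals computable from `z` are computable from a Borel function of `z`, for all `z` in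
a cone), and then `B` is sigma-projective, universally measurable and all Borel preimages of `B`
have the Baire property, or `B` is above all Borel functions: for every Borel `S` and all `z` in a cone some trace
of `B` on an `x ≤_T z` computes with `z` all values of `S` at reals `y ≤_T z`. Moreover, `B` is
comparable with every Borel bounded set `C` (in particular with every Borel set): either one trace
of `C` computes all traces of `B`, or one trace of `B` computes the jumps of all traces of `C`; and
the Borel bounded sets are well-founded with respect to the latter relation.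
-/

namespace Pool.Agent.Results.MP_917879_lc.BorelComparison

open Pool.Agent.H685R3 MeasureTheory
open Pool.Agent.N620.GP

/-- Turing reducibility of elements of the Cantor space (Mathlib's Turing reducibility, for
characteristic functions). -/
def Reducible (x y : ℕ → Bool) : Prop := TuringReducible (charFn x) (charFn y)

/-- `x` and `y` have the same Turing degree. -/
def SameDegree (x y : ℕ → Bool) : Prop := Reducible x y ∧ Reducible y x

/-- The Turing jump of `x` is reducible to `y`: every set (of natural numbers) which is computably
enumerable relative to `x` is computable from `y`. -/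
def JumpReducible (x y : ℕ → Bool) : Prop :=
  ∀ f : ℕ →. ℕ, TuringReducible f (charFn x) →
    ∀ u : ℕ → Bool, (∀ n, u n = true ↔ (f n).Dom) → Reducible u y

/-- The join `x ⊕ y`. -/
def Join (x y : ℕ → Bool) : ℕ → Bool := fun n => if n % 2 = 0 then x (n / 2) else y (n / 2)

/-- The `k`-th column of `x`. -/
def Column (x : ℕ → Bool) (k : ℕ) : ℕ → Bool := fun n => x (Nat.pair k n)

open Classical in
/-- The trace of `B` on the sequence of the columns of `x`: its `k`-th bit says whether the `k`-th
column of `x` belongs to `B`. -/
noncomputable def Trace (B : Set (ℕ → Bool)) (x : ℕ → Bool) : ℕ → Bool :=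
  fun k => decide (Column x k ∈ B)

/-- The Turing saturation of a set. -/
def Saturation (A : Set (ℕ → Bool)) : Set (ℕ → Bool) := {z | ∃ z' ∈ A, SameDegree z' z}

/-- All the sets attached to `B` have the property `P`. The sets attached to `B` are, for all Borel
functions `S` from reals to reals, the Turing saturations of the set of all `z` such that
`S z ≤_T Trace B x ⊕ z` for some `x ≤_T z`. -/
def Attached (P : Set (ℕ → Bool) → Prop) (B : Set (ℕ → Bool)) : Prop :=
  ∀ S : (ℕ → Bool) → ℕ → Bool, Measurable S →
    P (Saturation {z | ∃ x, Reducible x z ∧ Reducible (S z) (Join (Trace B x) z)})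

/-- There is a Borel function `F` such that for all `z` in a cone `F z` computes all traces of `B`
on reals computable from `z`. -/
def BorelBounded (B : Set (ℕ → Bool)) : Prop :=
  ∃ F : (ℕ → Bool) → ℕ → Bool, Measurable F ∧ ∃ w, ∀ z, Reducible w z →
    ∀ x, Reducible x z → Reducible (Trace B x) (F z)

/-- For all Borel functions `S` and all `z` in a cone there is an `x ≤_T z` such that
`Trace B x ⊕ z` computes all the values of `S` at reals computable from `z`. -/
def AboveBorel (B : Set (ℕ → Bool)) : Prop :=
  ∀ S : (ℕ → Bool) → ℕ → Bool, Measurable S → ∃ w, ∀ z, Reducible w z →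
    ∃ x, Reducible x z ∧ ∀ y, Reducible y z → Reducible (S y) (Join (Trace B x) z)

/-- For all `z` in a cone there is a `y ≤_T z` such that `Trace C y ⊕ z` computes all the traces of
`B` on reals computable from `z`. -/
def Below (B C : Set (ℕ → Bool)) : Prop :=
  ∃ w, ∀ z, Reducible w z → ∃ y, Reducible y z ∧
    ∀ x, Reducible x z → Reducible (Trace B x) (Join (Trace C y) z)

/-- For all `z` in a cone there is an `x ≤_T z` such that `Trace B x ⊕ z` computes the jumps of
`Trace C y ⊕ z` for all `y ≤_T z`. -/
def JumpBelow (C B : Set (ℕ → Bool)) : Prop :=
  ∃ w, ∀ z, Reducible w z → ∃ x, Reducible x z ∧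
    ∀ y, Reducible y z → JumpReducible (Join (Trace C y) z) (Join (Trace B x) z)

/-- All Borel preimages of `B` have the Baire property. -/
def HereditarilyBaire (B : Set (ℕ → Bool)) : Prop :=
  ∀ g : (ℕ → Bool) → ℕ → Bool, Measurable g → BaireMeasurableSet (g ⁻¹' B)

/-- `B` is measurable with respect to (the completion of) every finite Borel measure. -/
def UniversallyMeasurable (B : Set (ℕ → Bool)) : Prop :=
  ∀ μ : Measure (ℕ → Bool), IsFiniteMeasure μ → NullMeasurableSet B μ

/-- The sigma-projective sets: the smallest family of sets of reals which contains the Borel sets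
and is closed under complements, countable unions, Borel preimages and projections. -/
inductive SigmaProjective : Set (ℕ → Bool) → Prop
  | borel (A : Set (ℕ → Bool)) : MeasurableSet A → SigmaProjective A
  | compl (A : Set (ℕ → Bool)) : SigmaProjective A → SigmaProjective Aᶜ
  | union (A : ℕ → Set (ℕ → Bool)) : (∀ n, SigmaProjective (A n)) → SigmaProjective (⋃ n, A n)
  | preimage (A : Set (ℕ → Bool)) (g : (ℕ → Bool) → ℕ → Bool) :
      Measurable g → SigmaProjective A → SigmaProjective (g ⁻¹' A)
  | proj (A : Set (ℕ → Bool)) : SigmaProjective A → SigmaProjective {x | ∃ y, Join x y ∈ A}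

theorem sigmaProjective_of_sp {A : Set (ℕ → Bool)} (h : Pool.Agent.N620.SP.Sp A) :
    SigmaProjective A := by
  induction h with
  | borel A h => exact .borel A h
  | compl A _ ih => exact .compl A ih
  | union A _ ih => exact .union A ih
  | preimage A g hg _ ih => exact .preimage A g hg ih
  | proj A _ ih => exact .proj A ih

theorem jumpBelow_iff {B C : Set (ℕ → Bool)} : JumpBelow C B ↔ JB C B := by
  have h : ∀ x y : ℕ → Bool, JumpReducible x y ↔
      Pool.Agent.Helper227.TLe (Pool.Agent.Helper227.jump x) y := fun x y => jump_le_iff.symm
  unfold JumpBelow
  simp only [h]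
  exact Iff.rfl

/-- The sets attached to a set of reals are Turing invariant. Borel sets are Borel bounded. Borel
bounded sets are sigma-projective and universally measurable, their Borel preimages have the Baire
property, and they are not above all Borel functions. If the sets attached to `B` are determined, then (a) `B` is Borel
bounded or above all Borel functions, and (b) for every Borel bounded set `C` such that the sets
attached to `C` are determined exactly one of `Below B C` and `JumpBelow C B` holds. Finally, there
is no sequence of sets `B 0`, `B 1`, ... such that `B 0` is Borel bounded, the sets attached to the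
`B n` are determined, and `JumpBelow (B (n + 1)) (B n)` for all `n`. -/
theorem result :
    (∀ B, Attached TuringInvariant B) ∧
    (∀ B, MeasurableSet B → BorelBounded B) ∧
    (∀ B, BorelBounded B →
      SigmaProjective B ∧ HereditarilyBaire B ∧ UniversallyMeasurable B ∧ ¬ AboveBorel B) ∧
    (∀ B, Attached Determined B → (BorelBounded B ∨ AboveBorel B) ∧
      ∀ C, BorelBounded C → Attached Determined C →
        (Below B C ∧ ¬ JumpBelow C B) ∨ (JumpBelow C B ∧ ¬ Below B C)) ∧
    ¬ ∃ B : ℕ → Set (ℕ → Bool), BorelBounded (B 0) ∧ (∀ n, Attached Determined (B n)) ∧
      ∀ n, JumpBelow (B (n + 1)) (B n) := by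
  refine ⟨fun B S _ => inv_Sat _, fun B h => bb_of_measurable h, fun B h => ⟨?_, BB.hb h, BB.um h,
    fun h' => not_bb_of_above h' h⟩, fun B hB => ⟨?_, fun C h hC => ?_⟩, ?_⟩
  · obtain ⟨F, hF, h1⟩ := h
    exact sigmaProjective_of_sp (Pool.Agent.N620.SP.sp_of_bound hF h1)
  · by_cases h : BB B
    · exact Or.inl h
    · exact Or.inr fun S hS => above hB h hS
  · rw [jumpBelow_iff]
    rcases compare hB hC h with h1 | h1
    · exact Or.inl ⟨h1, fun h2 => not_below_jb h1 h2⟩
    · exact Or.inr ⟨h1, fun h2 => not_below_jb h2 h1⟩
  · rintro ⟨B, h0, hB, h⟩
    obtain ⟨T, hT, h1⟩ := BB.hs h0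
    exact no_descent hT B hB h1 fun n => jumpBelow_iff.1 (h n)

end Pool.Agent.Results.MP_917879_lc.BorelComparison
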