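import Pool.Agent.N480.OS.Sct

set_option autoImplicit false

/-!
Turing determinacy makes sequences of length `ω₁` of arbitrary nonempty sets of reals tame. There is
a selection principle: to every sequence `K` of nonempty sets of reals we attach one Turing invariant
set of reals, and if it is determined, then there is one real `w` which together with any code of
any countable ordinal `α` computes a member of `K α`. If moreover for some Borel subset `D` of the
plane the sections of `D` at the members of `K α` are all equal, for every `α`, then only countably
many sections occur. So there is no sequence of length `ω₁` of distinct elements of `ℝ / E`, for a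
Borel equivalence relation `E`, and none of distinct Borel sets of bounded rank.
-/

namespace Pool.Agent.Results.MP_917879_lc.OmegaOneSequences

open Pool.Agent.H685R3 Ordinal

/-- Turing reducibility of elements of the Cantor space (Mathlib's Turing reducibility, for
characteristic functions). -/
def Reducible (x y : ℕ → Bool) : Prop := TuringReducible (charFn x) (charFn y)

/-- The join `x ⊕ y`. -/
def Join (x y : ℕ → Bool) : ℕ → Bool := fun n => if n % 2 = 0 then x (n / 2) else y (n / 2)

/-- The relation on the natural numbers coded by `c`. -/
def Rel (c : ℕ → Bool) (i j : ℕ) : Prop := c (Nat.pair i j) = true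

/-- The real `c` codes the ordinal `α`: the relation coded by `c` is well-founded, and the rank of
`0` in this relation is `α`. -/
def Codes (c : ℕ → Bool) (α : Ordinal.{0}) : Prop :=
  ∃ _ : IsWellFounded ℕ (Rel c), IsWellFounded.rank (Rel c) 0 = α

/-- The set attached to `K`: all `x` such that for every ordinal `α` coded by a real computable from
`x` there is a member of `K α` computable from `x`. -/
def Attached (K : Ordinal.{0} → Set (ℕ → Bool)) : Set (ℕ → Bool) :=
  {x | ∀ c α, Reducible c x → Codes c α → ∃ y ∈ K α, Reducible y x}

/-- The section of `D` at `y`. -/
def Section (D : Set ((ℕ → Bool) × (ℕ → Bool))) (y : ℕ → Bool) : Set (ℕ → Bool) := {r | (y, r) ∈ D}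

/-- Let `K α` be a set of reals, for every ordinal `α`. The set attached to `K` is Turing invariant,
and if it is determined and `K α` is nonempty for all countable `α`, then
(a) there is a real `w` such that for every code `c` of every countable ordinal `α` some member of
`K α` is computable from `w ⊕ c`, and
(b) for every Borel set `D` in the plane: if for all countable `α` the sections of `D` at the members
of `K α` are equal, then the set of all these sections (for all countable `α`) is countable. -/
theorem result (K : Ordinal.{0} → Set (ℕ → Bool)) :
    TuringInvariant (Attached K) ∧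
      (Determined (Attached K) → (∀ α < ω₁, (K α).Nonempty) →
        (∃ w, ∀ c α, Codes c α → ∃ y ∈ K α, Reducible y (Join w c)) ∧
        ∀ D : Set ((ℕ → Bool) × (ℕ → Bool)), MeasurableSet D →
          (∀ α < ω₁, ∀ y ∈ K α, ∀ z ∈ K α, Section D y = Section D z) →
          {S | ∃ α < ω₁, ∃ y ∈ K α, S = Section D y}.Countable) := by
  refine ⟨Pool.Agent.N480.OS.inv_Att (K := K), fun hD hK =>
    ⟨Pool.Agent.N480.OS.select hK hD, fun D hDm hs => ?_⟩⟩
  classical
  choose y hy using hK
  let B : Ordinal.{0} → Set (ℕ → Bool) := fun α => if h : α < ω₁ then Section D (y α h) else ∅
  have h1 := Pool.Agent.N480.OS.sections_countable (K := K) (fun α hα => ⟨_, hy α hα⟩) hD hDm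
    (B := B) (fun α hα z hz r => by
      have h2 : B α = Section D z := by
        simp only [B]
        rw [dif_pos hα]
        exact hs α hα _ (hy α hα) _ hz
      rw [h2]
      rfl)
  refine h1.mono ?_
  rintro S ⟨α, hα, z, hz, rfl⟩
  refine ⟨α, hα, ?_⟩
  simp only [B]
  rw [dif_pos hα]
  exact hs α hα _ hz _ (hy α hα)

end Pool.Agent.Results.MP_917879_lc.OmegaOneSequences
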