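import Pool.Agent.N480.OS.Hll

set_option autoImplicit false

/-!
Under Turing determinacy, a union of `ω₁` many arbitrary sets of reals is almost covered by a
countable subunion, both for Lebesgue measure and for Baire category: for every sequence
`A : ω₁ → P(ℝ)` there is a countable `β` such that `⋃_{α < β} A α` and `⋃_{α < ω₁} A α` have the same
outer measure inside every measurable set, and are non-meager in the same sets with the Baire
property. So unions of `ω₁` many null (meager, measurable, Baire) sets are null (meager, measurable,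
Baire). The Turing invariant sets whose determinacy is used are defined explicitly.
-/

namespace Pool.Agent.Results.MP_917879_lc.OmegaOneUnions

open Pool.Agent.H685R3 MeasureTheory Ordinal

/-- Turing reducibility of elements of the Cantor space (Mathlib's Turing reducibility, for
characteristic functions). -/
def Reducible (x y : ℕ → Bool) : Prop := TuringReducible (charFn x) (charFn y)

/-- The join `x ⊕ y`. -/
def Join (x y : ℕ → Bool) : ℕ → Bool := fun n => if n % 2 = 0 then x (n / 2) else y (n / 2)

/-- The first half of a join. -/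
def Fst (u : ℕ → Bool) : ℕ → Bool := fun n => u (2 * n)

/-- The second half of a join. -/
def Snd (u : ℕ → Bool) : ℕ → Bool := fun n => u (2 * n + 1)

/-- The first `n` values of `x`. -/
def First (x : ℕ → Bool) (n : ℕ) : List Bool := (List.range n).map x

/-- The reals extending the finite sequence `s`. -/
def Cylinder (s : List Bool) : Set (ℕ → Bool) := {r | ∀ (i : ℕ) (h : i < s.length), r i = s[i]}

/-- The fair coin measure on the Cantor space. -/
noncomputable def mu : Measure (ℕ → Bool) :=
  Measure.infinitePi (fun _ : ℕ => (PMF.uniformOfFintype Bool).toMeasure)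

/-- The relation on the natural numbers coded by `c`. -/
def Rel (c : ℕ → Bool) (i j : ℕ) : Prop := c (Nat.pair i j) = true

/-- The real `c` codes the ordinal `α`: the relation coded by `c` is well-founded, and the rank of
`0` in this relation is `α`. -/
def Codes (c : ℕ → Bool) (α : Ordinal.{0}) : Prop :=
  ∃ _ : IsWellFounded ℕ (Rel c), IsWellFounded.rank (Rel c) 0 = α

/-- The set attached to `K`: all `x` such that for every ordinal `α` coded by a real computable from
`x` there is a member of `K α` computable from `x`. -/
def Attached (K : Ordinal.{0} → Set (ℕ → Bool)) : Set (ℕ → Bool) :=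
  {x | ∀ c α, Reducible c x → Codes c α → ∃ y ∈ K α, Reducible y x}

/-- The `n`-th open set coded by `y`. -/
def Open (y : ℕ → Bool) (n : ℕ) : Set (ℕ → Bool) :=
  {r | ∃ k, y (Nat.pair n (Encodable.encode (First r k))) = true}

/-- The union of the sets `A α` with `α < β`. -/
def Union (A : Ordinal.{0} → Set (ℕ → Bool)) (β : Ordinal.{0}) : Set (ℕ → Bool) :=
  {r | ∃ α < β, r ∈ A α}

/-- The set `A α` without the `G_δ` set coded by `u`. -/
def Rest (A : Ordinal.{0} → Set (ℕ → Bool)) (u : ℕ → Bool) (α : Ordinal.{0}) : Set (ℕ → Bool) :=
  {r | r ∈ A α ∧ ∃ n, r ∉ Open u n}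

/-- The codes of `G_δ` sets of measure zero, with effective bounds, containing `N`. -/
def NullCovers (N : Set (ℕ → Bool)) : Set (ℕ → Bool) :=
  {y | (∀ n, mu (Open y n) ≤ (1 / 2) ^ n) ∧ ∀ r ∈ N, ∀ n, r ∈ Open y n}

/-- The codes of intersections of dense open sets disjoint from `M`. -/
def DenseAvoiding (M : Set (ℕ → Bool)) : Set (ℕ → Bool) :=
  {y | (∀ n, Dense (Open y n)) ∧ ∀ r ∈ M, ∃ n, r ∉ Open y n}

/-- The `n`-th set of the test enumerated by `W` relative to the oracle `x`. -/
def Test (W : List Bool × ℕ × List Bool → Prop) (x : ℕ → Bool) (n : ℕ) : Set (ℕ → Bool) :=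
  {r | ∃ s t, W (First x s, n, First r t)}

/-- `W` enumerates a universal oracle test: the `n`-th set has measure at most `2 ^ (-n)`, and
contains every `G_δ` set that is coded by a real computable from the oracle whose `k`-th open set
has measure at most `2 ^ (-k)` for all `k`. -/
structure Universal (W : List Bool × ℕ × List Bool → Prop) : Prop where
  mono : ∀ s s' n t t', s <+: s' → t <+: t' → W (s, n, t) → W (s', n, t')
  le : ∀ x n, mu (Test W x n) ≤ (1 / 2) ^ n
  covers : ∀ x y, Reducible y x → (∀ n, mu (Open y n) ≤ (1 / 2) ^ n) →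
    ∀ n, (⋂ k, Open y k) ⊆ Test W x n

/-- The function `f` presents the ordinal `α`: it enumerates the ordinals at most `α`, beginning
with `α`. -/
def Presents (α : Ordinal.{0}) (f : ℕ → Ordinal.{0}) : Prop := f 0 = α ∧ Set.range f = Set.Iic α

open Classical in
/-- The code of the ordering of the indices in a presentation. -/
noncomputable def CodeOf (f : ℕ → Ordinal.{0}) : ℕ → Bool := fun m =>
  decide (f m.unpair.1 < f m.unpair.2)

/-- The finite sequence `p` is an initial segment of `f`. -/
def Starts (p : List Ordinal.{0}) (f : ℕ → Ordinal.{0}) : Prop :=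
  (List.range p.length).map f = p

/-- The set of the reals `r` that avoid the `n`-th set of the test relative to `w ⊕ c`, for the code
`c` of some presentation of `α` beginning with `p`. -/
def Avoid (W : List Bool × ℕ × List Bool → Prop) (w : ℕ → Bool) (α : Ordinal.{0})
    (p : List Ordinal.{0}) (n : ℕ) : Set (ℕ → Bool) :=
  {r | ∃ f, Presents α f ∧ Starts p f ∧ r ∉ Test W (Join w (CodeOf f)) n}

open Classical in
/-- The real coding the outer measures of the sets `S n` inside all cylinders. -/
noncomputable def Outer (S : ℕ → Set (ℕ → Bool)) : ℕ → Bool := fun m =>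
  decide (∃ (q : ℚ) (n : ℕ) (s : List Bool), m = Encodable.encode (q, n, s) ∧
    ENNReal.ofReal q < mu (S n ∩ Cylinder s))

/-- The finite sequences of ordinals at most `α`. -/
def Positions (α : Ordinal.{0}) : Set (List Ordinal.{0}) := {p | ∀ ξ ∈ p, ξ ≤ α}

/-- The `k`-th column of `v`. -/
def Column (v : ℕ → Bool) (k : ℕ) : ℕ → Bool := fun i => v (Nat.pair k i)

open Classical in
/-- The real coding the set of all `k` such that for some position `q` properly extending `p` and
containing `ξ` the `k`-th column of `v` codes the outer measures of the sets `Avoid W w α q n`. -/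
noncomputable def Next (W : List Bool × ℕ × List Bool → Prop) (w v : ℕ → Bool) (α : Ordinal.{0})
    (p : List Ordinal.{0}) (ξ : Ordinal.{0}) : ℕ → Bool := fun k =>
  decide (∃ q ∈ Positions α, p <+: q ∧ p.length < q.length ∧ ξ ∈ q ∧
    Outer (Avoid W w α q) = Column v k)

/-- The countable set of all reals `Outer (Avoid W w α p) ⊕ Next W w v α p ξ`, for `u = w ⊕ v`. -/
def Types (W : List Bool × ℕ × List Bool → Prop) (u : ℕ → Bool) (α : Ordinal.{0}) :
    Set (ℕ → Bool) :=
  {y | ∃ p ∈ Positions α, ∃ ξ ≤ α,
    y = Join (Outer (Avoid W (Fst u) α p)) (Next W (Fst u) (Snd u) α p ξ)}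

/-- All sets of reals attached to `A` have the property `P`: for all reals `u` the sets attached to
the three families of the null covers of `A α ∖ G`, of the dense `G_δ` sets avoiding `A α ∖ G`, where
`G` is the `G_δ` set coded by `u`, and of the upper bounds of `Types W u α`. -/
def AllAttached (P : Set (ℕ → Bool) → Prop) (W : List Bool × ℕ × List Bool → Prop)
    (A : Ordinal.{0} → Set (ℕ → Bool)) : Prop :=
  ∀ u, P (Attached fun α => NullCovers (Rest A u α)) ∧
    P (Attached fun α => DenseAvoiding (Rest A u α)) ∧
    P (Attached fun α => {y | ∀ b ∈ Types W u α, Reducible b y})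

/-- There is a universal oracle test. If `W` enumerates one, then for every sequence `A` of sets of
reals the sets attached to `A` are Turing invariant, and if they are all determined, then there is a
countable ordinal `β` such that
(a) for every measurable set `M` the sets `(⋃_{α < ω₁} A α) ∩ M` and `(⋃_{α < β} A α) ∩ M` have the
same outer measure, and
(b) for every set `M` with the Baire property, if `(⋃_{α < β} A α) ∩ M` is meager, then so is
`(⋃_{α < ω₁} A α) ∩ M`. -/
theorem result :
    (∃ W, Universal W) ∧ ∀ W, Universal W → ∀ A : Ordinal.{0} → Set (ℕ → Bool),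
      AllAttached TuringInvariant W A ∧ (AllAttached Determined W A →
        ∃ β < ω₁, (∀ M, MeasurableSet M → mu (Union A ω₁ ∩ M) = mu (Union A β ∩ M)) ∧
          ∀ M, BaireMeasurableSet M → IsMeagre (Union A β ∩ M) → IsMeagre (Union A ω₁ ∩ M)) := by
  refine ⟨?_, fun W hW A => ⟨fun u => ⟨?_, ?_, ?_⟩, fun hD => ?_⟩⟩
  · obtain ⟨T, hT⟩ := Pool.Agent.N480.OS.exists_uni
    exact ⟨T, hT.mono, hT.le, hT.cap⟩
  · exact Pool.Agent.N480.OS.inv_Att (K := fun α => NullCovers (Rest A u α))
  · exact Pool.Agent.N480.OS.inv_Att (K := fun α => DenseAvoiding (Rest A u α))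
  · exact Pool.Agent.N480.OS.inv_Att (K := fun α => {y | ∀ b ∈ Types W u α, Reducible b y})
  · exact Pool.Agent.N480.OS.hull_theorem (A := A) (T := W) ⟨hW.mono, hW.le, hW.covers⟩
      (fun u => (hD u).1) (fun u => (hD u).2.1) (fun u => (hD u).2.2)

end Pool.Agent.Results.MP_917879_lc.OmegaOneUnions
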