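import Pool.Agent.N620.WU.Main

set_option autoImplicit false

/-!
Turing determinacy implies a weak uniformization principle for ALL relations between reals: every
relation with an uncountable domain is uniformized by a continuous function on a set of reals which
is not Marczewski null. Applied to `N x v := x ∈ A` this is a weak perfect set property of all sets
of reals: all uncountable sets of reals are Marczewski positive. Applied to graphs it says that
every function from an uncountable set of reals to the reals is continuous on an uncountable set.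
Stated as an explicit reduction: to a relation we attach certain Turing invariant sets of reals, and
if they are determined, the conclusions hold.
-/

namespace Pool.Agent.Results.MP_917879_lc.WeakUniformization

open Pool.Agent.H685R3 Pool.Agent.N620.WP Pool.Agent.N620.WU

/-- Turing reducibility of elements of the Cantor space (Mathlib's Turing reducibility, for
characteristic functions). -/
def Reducible (x y : ℕ → Bool) : Prop := TuringReducible (charFn x) (charFn y)

/-- `x` and `y` have the same Turing degree. -/
def SameDegree (x y : ℕ → Bool) : Prop := Reducible x y ∧ Reducible y x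

/-- The join `x ⊕ y`. -/
def Join (x y : ℕ → Bool) : ℕ → Bool := fun n => if n % 2 = 0 then x (n / 2) else y (n / 2)

/-- The Turing saturation of a set. -/
def Saturation (B : Set (ℕ → Bool)) : Set (ℕ → Bool) := {x | ∃ x' ∈ B, SameDegree x' x}

/-- The sets attached to the relation `N` have the property `P`. The sets attached to `N` are the
Turing saturation of the set of all `y` such that for all `e` the bit `F y e` says correctly whether
there is a `v` computable from `y` with `N (Ψ y e) v`, and, for all reals `w` and `u`, the Turing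
saturation of the set of all `(x ⊕ v) ⊕ u` with `N x v` and `v` computable from `x ⊕ w`. -/
def Attached (P : Set (ℕ → Bool) → Prop) (Ψ : (ℕ → Bool) → ℕ → ℕ → Bool) (F : (ℕ → Bool) → ℕ → Bool)
    (N : (ℕ → Bool) → (ℕ → Bool) → Prop) : Prop :=
  P (Saturation {y | ∀ e, (∃ v, Reducible v y ∧ N (Ψ y e) v) ↔ F y e = true}) ∧
    ∀ w u, P (Saturation {y | ∃ x v, N x v ∧ Reducible v (Join x w) ∧ y = Join (Join x v) u})

/-- `h` parametrizes a Cantor set. -/
def IsCantor (h : (ℕ → Bool) → ℕ → Bool) : Prop := Continuous h ∧ Function.Injective h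

theorem saturation_eq {E : ℕ → List Bool → ℕ → Bool → Prop} {N : (ℕ → Bool) → (ℕ → Bool) → Prop} :
    Saturation {y | ∀ e, (∃ v, Reducible v y ∧ N (Psi (VE E) e y) v) ↔ G (VE E) e y 0 = true} =
      SN E N := by
  ext x
  constructor
  · rintro ⟨x', h, h1, h2⟩
    exact ⟨x', h1, h2, h⟩
  · rintro ⟨x', h1, h2, h⟩
    exact ⟨x', h, h1, h2⟩

theorem saturation_eq' {N : (ℕ → Bool) → (ℕ → Bool) → Prop} {w u : ℕ → Bool} :
    Saturation {y | ∃ x v, N x v ∧ Reducible v (Join x w) ∧ y = Join (Join x v) u} =
      DD (AA N w) u := by
  ext x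
  constructor
  · rintro ⟨x', ⟨a, v, h, h', rfl⟩, h1, h2⟩
    exact ⟨Join a v, join_mem_AA h h', h1, h2⟩
  · rintro ⟨a, ha, h1, h2⟩
    refine ⟨_, ⟨_, _, ha.1, ha.2, rfl⟩, ?_⟩
    have h3 : Join (Pool.Agent.Helper227.evn a) (Pool.Agent.Helper227.odd' a) = a :=
      Pool.Agent.Helper227.join_evn_odd a
    rw [h3]
    exact ⟨h1, h2⟩

/-- There are Borel maps `Ψ` (from the Cantor space to sequences of elements of the Cantor space) and
`F` such that for every relation `N` between reals the sets attached to `N` are Turing invariant,
and if they are determined and the domain of `N` is uncountable, then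
(a) for some real `w` every `z ≥_T w` has the same Turing degree as `x ⊕ w` for some `x` for which
there is a `v ≤_T z` with `N x v`, and
(b) there are a Cantor set, parametrized by `p`, and a continuous function `q` such that every
Cantor set contained in it, parametrized by `fun c => p (k c)`, has a member `x = p (k c)` with
`N x (q (k c))`. -/
theorem result :
    ∃ (Ψ : (ℕ → Bool) → ℕ → ℕ → Bool) (F : (ℕ → Bool) → ℕ → Bool), Measurable Ψ ∧ Measurable F ∧
      ∀ N : (ℕ → Bool) → (ℕ → Bool) → Prop, Attached TuringInvariant Ψ F N ∧
        (Attached Determined Ψ F N → ¬ {x | ∃ v, N x v}.Countable →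
          (∃ w, ∀ z, Reducible w z → ∃ x v, N x v ∧ Reducible v z ∧ SameDegree (Join x w) z) ∧
          ∃ p q : (ℕ → Bool) → ℕ → Bool, IsCantor p ∧ Continuous q ∧
            ∀ k, IsCantor k → ∃ c, N (p (k c)) (q (k c))) := by
  obtain ⟨E, hE, hE'⟩ := Pool.Agent.Y588.PD.exists_fam
  refine ⟨fun y e => Psi (VE E) e y, fun y e => G (VE E) e y 0, measurable_psi hE, measurable_G,
    fun N => ⟨⟨?_, fun w u => ?_⟩, fun hD hN => ?_⟩⟩
  · rw [saturation_eq]
    exact inv_SN
  · rw [saturation_eq']
    exact inv_DD u
  · obtain ⟨h1, h2⟩ := hD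
    rw [saturation_eq] at h1
    obtain ⟨⟨w, hw⟩, p, q, h3, h4, h5, h6⟩ := weak_unif hE hE' hN h1 fun w u => by
      have h3 := h2 w u
      rwa [saturation_eq'] at h3
    refine ⟨⟨w, fun z hz => ?_⟩, p, q, ⟨h3, h4⟩, h5, fun k hk => h6 k hk.1 hk.2⟩
    obtain ⟨x, v, h7, h8, h9, h10⟩ := hw z hz
    exact ⟨x, v, h7, h8, h9, h10⟩

end Pool.Agent.Results.MP_917879_lc.WeakUniformization
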